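import Pool.Agent.R978.UI.Tool

set_option autoImplicit false

namespace R978UI

open Finset Pool.Agent.R980 Filter Topology
open scoped Classical

theorem mem_eIn {n : ℕ} (G : SimpleGraph (Fin n)) (S : Finset (Fin n)) (e : Edge n) :
    e ∈ (univ.filter fun e : Edge n => e.1 ∈ G.edgeSet ∧ ∀ v ∈ e.1, v ∈ S) ↔
      e.1 ∈ G.edgeSet ∧ ∀ v ∈ e.1, v ∈ S := by
  simp

/-- splitting the edges of a path with private leaves -/
theorem eIn_union {n s : ℕ} (G : SimpleGraph (Fin n)) (u : Fin s → Fin n) (I : Finset (Fin s))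
    (x : Fin s → Fin n) (hinj : ∀ i ∈ I, ∀ j ∈ I, x i = x j → i = j)
    (hne : ∀ i ∈ I, ∀ j, x i ≠ u j) (hadj : ∀ i ∈ I, ∀ j, G.Adj (x i) (u j) ↔ j = i) :
    eIn G (univ.image u) + I.card + eIn G (I.image x) ≤ eIn G (univ.image u ∪ I.image x) := by
  set A1 := univ.filter fun e : Edge n => e.1 ∈ G.edgeSet ∧ ∀ v ∈ e.1, v ∈ univ.image u with hA1
  set A3 := univ.filter fun e : Edge n => e.1 ∈ G.edgeSet ∧ ∀ v ∈ e.1, v ∈ I.image x with hA3
  have hd : ∀ i : Fin s, i ∈ I → ¬ (s(x i, u i) : Sym2 (Fin n)).IsDiag := by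
    intro i hi
    rw [Sym2.mk_isDiag_iff]; exact hne i hi i
  set A2 : Finset (Edge n) := I.attach.image fun i => ⟨s(x i.1, u i.1), hd i.1 i.2⟩ with hA2
  have hA2c : A2.card = I.card := by
    rw [hA2, card_image_of_injective, card_attach]
    intro i j hij
    have h1 := congrArg Subtype.val hij
    simp only [Sym2.eq_iff] at h1
    rcases h1 with ⟨h1, _⟩ | ⟨h1, _⟩
    · exact Subtype.ext (hinj _ i.2 _ j.2 h1)
    · exact absurd h1 (hne _ i.2 _)
  have hd12 : Disjoint A1 A2 := by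
    rw [Finset.disjoint_left]
    intro e he1 he2
    rw [hA1, mem_filter] at he1
    rw [hA2, mem_image] at he2
    obtain ⟨i, _, rfl⟩ := he2
    have := he1.2.2 (x i.1) (by simp)
    obtain ⟨j, _, hj⟩ := mem_image.1 this
    exact hne _ i.2 j hj.symm
  have hd13 : Disjoint (A1 ∪ A2) A3 := by
    rw [Finset.disjoint_left]
    intro e he1 he3
    rw [hA3, mem_filter] at he3
    rcases mem_union.1 he1 with h | h
    · rw [hA1, mem_filter] at h
      obtain ⟨v, hv⟩ : ∃ v, v ∈ e.1 := by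
        obtain ⟨e, he⟩ := e
        induction e with
        | _ a b => exact ⟨a, by simp⟩
      obtain ⟨j, _, hj⟩ := mem_image.1 (h.2.2 v hv)
      obtain ⟨i, hi, hi'⟩ := mem_image.1 (he3.2.2 v hv)
      exact hne i hi j (hi'.trans hj.symm)
    · rw [hA2, mem_image] at h
      obtain ⟨i, _, rfl⟩ := h
      have := he3.2.2 (u i.1) (by simp)
      obtain ⟨j, hj, hj'⟩ := mem_image.1 this
      exact hne j hj i.1 hj'
  have hsub : A1 ∪ A2 ∪ A3 ⊆ univ.filter fun e : Edge n => e.1 ∈ G.edgeSet ∧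
      ∀ v ∈ e.1, v ∈ univ.image u ∪ I.image x := by
    intro e he
    rw [mem_filter]
    refine ⟨mem_univ _, ?_⟩
    rcases mem_union.1 he with h | h
    · rcases mem_union.1 h with h | h
      · rw [hA1, mem_filter] at h
        exact ⟨h.2.1, fun v hv => mem_union_left _ (h.2.2 v hv)⟩
      · rw [hA2, mem_image] at h
        obtain ⟨i, _, rfl⟩ := h
        refine ⟨?_, ?_⟩
        · rw [SimpleGraph.mem_edgeSet]; exact (hadj _ i.2 _).2 rfl
        · intro v hv
          rw [Sym2.mem_iff] at hv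
          rcases hv with rfl | rfl
          · exact mem_union_right _ (mem_image_of_mem _ i.2)
          · exact mem_union_left _ (mem_image_of_mem _ (mem_univ _))
    · rw [hA3, mem_filter] at h
      exact ⟨h.2.1, fun v hv => mem_union_right _ (h.2.2 v hv)⟩
  have h := card_le_card hsub
  rw [card_union_of_disjoint hd13, card_union_of_disjoint hd12, hA2c] at h
  exact h

/-- deleting one endpoint of every edge between leaves -/
theorem prune {n s : ℕ} (G : SimpleGraph (Fin n)) (I : Finset (Fin s)) (x : Fin s → Fin n)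
    (hinj : ∀ i ∈ I, ∀ j ∈ I, x i = x j → i = j) :
    ∃ J ⊆ I, (∀ i ∈ J, ∀ j ∈ J, ¬ G.Adj (x i) (x j)) ∧ I.card ≤ J.card + eIn G (I.image x) := by
  set J := I.filter fun i => ∀ j ∈ I, G.Adj (x i) (x j) → i < j with hJ
  refine ⟨J, filter_subset _ _, ?_, ?_⟩
  · intro i hi j hj hij
    rw [hJ, mem_filter] at hi hj
    have h1 := hi.2 j hj.1 hij
    have h2 := hj.2 i hi.1 hij.symm
    exact lt_asymm h1 h2
  · have hc : I.card = J.card + (I.filter fun i => ¬ ∀ j ∈ I, G.Adj (x i) (x j) → i < j).card := by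
      rw [hJ, Finset.card_filter_add_card_filter_not]
    rw [hc]
    refine Nat.add_le_add_left ?_ _
    -- choose a smaller neighbour
    have hch : ∀ i : Fin s, ∃ j : Fin s, i ∈ (I.filter fun i => ¬ ∀ j ∈ I, G.Adj (x i) (x j) → i < j) →
        j ∈ I ∧ G.Adj (x i) (x j) ∧ j < i := by
      intro i
      by_cases h : i ∈ (I.filter fun i => ¬ ∀ j ∈ I, G.Adj (x i) (x j) → i < j)
      · rw [mem_filter] at h
        obtain ⟨hi, h⟩ := h
        push Not at h
        obtain ⟨j, hj, hadj, hle⟩ := h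
        refine ⟨j, fun _ => ⟨hj, hadj, lt_of_le_of_ne hle ?_⟩⟩
        rintro rfl
        exact G.loopless.irrefl _ hadj
      · exact ⟨i, fun h' => absurd h' h⟩
    choose f hf using hch
    set R := I.filter fun i => ¬ ∀ j ∈ I, G.Adj (x i) (x j) → i < j with hR
    have hdd : ∀ i : {i // i ∈ R}, ¬ (s(x i.1, x (f i.1)) : Sym2 (Fin n)).IsDiag := by
      intro i hd
      rw [Sym2.mk_isDiag_iff] at hd
      have := (hf i.1 i.2).2.1
      rw [hd] at this
      exact G.loopless.irrefl _ this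
    have hRI : ∀ i : {i // i ∈ R}, i.1 ∈ I := fun i => (mem_filter.1 i.2).1
    have hinj' : Function.Injective fun i : {i // i ∈ R} => (⟨s(x i.1, x (f i.1)), hdd i⟩ : Edge n) := by
      intro i j hij
      have h1 := congrArg Subtype.val hij
      simp only [Sym2.eq_iff] at h1
      rcases h1 with ⟨h1, _⟩ | ⟨h1, h2⟩
      · exact Subtype.ext (hinj _ (hRI i) _ (hRI j) h1)
      · have e1 : i.1 = f j.1 := hinj _ (hRI i) _ (hf j.1 j.2).1 h1
        have e2 : f i.1 = j.1 := hinj _ (hf i.1 i.2).1 _ (hRI j) h2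
        have l1 := (hf i.1 i.2).2.2
        have l2 := (hf j.1 j.2).2.2
        rw [e2] at l1
        rw [← e1] at l2
        exact absurd l1 (lt_asymm l2)
    rw [← card_attach, ← card_image_of_injective _ hinj']
    unfold eIn
    refine card_le_card ?_
    intro e he
    obtain ⟨i, _, rfl⟩ := mem_image.1 he
    rw [mem_filter]
    refine ⟨mem_univ _, (SimpleGraph.mem_edgeSet G).2 (hf i.1 i.2).2.1, ?_⟩
    intro v hv
    rw [Sym2.mem_iff] at hv
    rcases hv with rfl | rfl
    · exact mem_image_of_mem _ (hRI i)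
    · exact mem_image_of_mem _ (hf i.1 i.2).1

/-- deterministic conclusion of the supercritical case -/
theorem det (hB4 : StmtB4) {n s : ℕ} (G : SimpleGraph (Fin n)) (u : Fin s → Fin n)
    (hu : IsPath G u) (hs : 1 ≤ s) (V₂ : Finset (Fin n)) (hV : ∀ i, u i ∉ V₂) (ζ τ : ℝ) (hτ : 0 < τ)
    (hpriv : ζ * s ≤ (((univ.image u).filter fun w => ∃ y ∈ V₂, G.Adj w y ∧
      ∀ u' ∈ univ.image u, G.Adj u' y → u' = w).card : ℝ))
    (hB0 : ∀ S : Finset (Fin n), (s : ℝ) ≤ S.card → (S.card : ℝ) ≤ 2 * s →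
      (eIn G S : ℝ) ≤ (1 + τ) * S.card) :
    (2 : ℝ) ^ (ζ * s - 6 * τ * s - 3) ≤ (U G : ℝ) * (2 * s) ^ 4 := by
  obtain ⟨huinj, huadj⟩ := hu
  set I : Finset (Fin s) := univ.filter fun i => ∃ y ∈ V₂, G.Adj (u i) y ∧
      ∀ j, G.Adj (u j) y → j = i with hI
  have hIc : ζ * s ≤ (I.card : ℝ) := by
    refine hpriv.trans ?_
    have : (univ.image u).filter (fun w => ∃ y ∈ V₂, G.Adj w y ∧
      ∀ u' ∈ univ.image u, G.Adj u' y → u' = w) ⊆ I.image u := by
      intro w hw
      rw [mem_filter] at hw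
      obtain ⟨hw1, y, hy, hwy, hpr⟩ := hw
      obtain ⟨i, _, rfl⟩ := mem_image.1 hw1
      refine mem_image_of_mem _ ?_
      rw [hI, mem_filter]
      exact ⟨mem_univ _, y, hy, hwy, fun j hj => huinj (hpr _ (mem_image_of_mem _ (mem_univ _)) hj)⟩
    exact_mod_cast (card_le_card this).trans card_image_le
  have hx : ∀ i : Fin s, ∃ y : Fin n, i ∈ I → y ∈ V₂ ∧ G.Adj (u i) y ∧ ∀ j, G.Adj (u j) y → j = i := by
    intro i
    by_cases h : i ∈ I
    · have h' := h
      rw [hI, mem_filter] at h'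
      obtain ⟨_, y, hy⟩ := h'
      exact ⟨y, fun _ => hy⟩
    · exact ⟨u i, fun h' => absurd h' h⟩
  choose x hx using hx
  have hxinj : ∀ i ∈ I, ∀ j ∈ I, x i = x j → i = j := by
    intro i hi j hj hij
    have := (hx i hi).2.2 j
    rw [hij] at this
    exact (this (hx j hj).2.1).symm
  have hxne : ∀ i ∈ I, ∀ j, x i ≠ u j := by
    intro i hi j h
    have := (hx i hi).1
    rw [h] at this
    exact hV j this
  have hxadj : ∀ i ∈ I, ∀ j, G.Adj (x i) (u j) ↔ j = i := by
    intro i hi j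
    constructor
    · intro h; exact (hx i hi).2.2 j h.symm
    · rintro rfl; exact (hx _ hi).2.1.symm
  have h1 := eIn_union G u I x hxinj hxne hxadj
  obtain ⟨J, hJI, hJind, hJc⟩ := prune G I x hxinj
  have hcu : (univ.image u).card = s := by
    rw [card_image_of_injective _ huinj, card_univ, Fintype.card_fin]
  have hcx : (I.image x).card = I.card := by
    rw [Finset.card_image_iff]
    intro i hi j hj h
    exact hxinj i hi j hj h
  have hdis : Disjoint (univ.image u) (I.image x) := by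
    rw [Finset.disjoint_left]
    intro v hv hv'
    obtain ⟨j, _, rfl⟩ := mem_image.1 hv
    obtain ⟨i, hi, h⟩ := mem_image.1 hv'
    exact hxne i hi j h
  have hcun : (univ.image u ∪ I.image x).card = s + I.card := by
    rw [card_union_of_disjoint hdis, hcu, hcx]
  have hIs : I.card ≤ s := by
    have := card_le_univ I
    rwa [Fintype.card_fin] at this
  have hIs' : (I.card : ℝ) ≤ s := by exact_mod_cast hIs
  have h2 := hB0 (univ.image u ∪ I.image x) (by rw [hcun]; push_cast; linarith [Nat.cast_nonneg (α := ℝ) I.card])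
    (by rw [hcun]; push_cast; linarith)
  rw [hcun] at h2
  push_cast at h2
  have h1' : (eIn G (univ.image u) : ℝ) + I.card + eIn G (I.image x) ≤
      eIn G (univ.image u ∪ I.image x) := by exact_mod_cast h1
  -- the path has s - 1 edges
  have hpath : s - 1 ≤ eIn G (univ.image u) := by
    have hadj : ∀ i : Fin (s - 1), G.Adj (u ⟨i, by omega⟩) (u ⟨i + 1, by omega⟩) :=
      fun i => huadj _ _ rfl
    have hdd : ∀ i : Fin (s - 1), ¬ (s(u ⟨i, by omega⟩, u ⟨i + 1, by omega⟩) : Sym2 (Fin n)).IsDiag := by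
      intro i h
      rw [Sym2.mk_isDiag_iff] at h
      have := huinj h
      simp at this
    have hinj' : Function.Injective fun i : Fin (s - 1) =>
        (⟨s(u ⟨i, by omega⟩, u ⟨i + 1, by omega⟩), hdd i⟩ : Edge n) := by
      intro i j hij
      have h1 := congrArg Subtype.val hij
      simp only [Sym2.eq_iff] at h1
      rcases h1 with ⟨h1, _⟩ | ⟨h1, h2⟩
      · have := huinj h1
        simp at this
        exact Fin.ext this
      · have e1 := huinj h1
        have e2 := huinj h2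
        simp at e1 e2
        omega
    have : (univ : Finset (Fin (s - 1))).card = s - 1 := by simp
    rw [← this, ← card_image_of_injective _ hinj']
    unfold eIn
    refine card_le_card ?_
    intro e he
    obtain ⟨i, _, rfl⟩ := mem_image.1 he
    rw [mem_filter]
    refine ⟨mem_univ _, (SimpleGraph.mem_edgeSet G).2 (hadj i), ?_⟩
    intro v hv
    rw [Sym2.mem_iff] at hv
    rcases hv with rfl | rfl
    · exact mem_image_of_mem _ (mem_univ _)
    · exact mem_image_of_mem _ (mem_univ _)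
  have hpath' : (s : ℝ) - 1 ≤ eIn G (univ.image u) := by
    have : s ≤ eIn G (univ.image u) + 1 := by omega
    have : (s : ℝ) ≤ eIn G (univ.image u) + 1 := by exact_mod_cast this
    linarith
  have hbound : (eIn G (univ.image u) : ℝ) + eIn G (I.image x) ≤ s + 2 * τ * s := by
    nlinarith
  set c : ℕ := ⌊2 * τ * s⌋₊ + 1 with hc
  have hc1 : eIn G (univ.image u) ≤ (s - 1) + c := by
    have h3 : (eIn G (univ.image u) : ℝ) ≤ s + 2 * τ * s := by
      have : (0 : ℝ) ≤ eIn G (I.image x) := by positivity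
      linarith
    have h4 : ((eIn G (univ.image u) - s : ℕ) : ℝ) ≤ 2 * τ * s := by
      rcases le_or_gt s (eIn G (univ.image u)) with h | h
      · rw [Nat.cast_sub h]; linarith
      · rw [Nat.sub_eq_zero_of_le h.le]; push_cast; positivity
    have h5 := Nat.le_floor h4
    omega
  have h4 := hB4 n s c G u J x ⟨huinj, huadj⟩ hs (fun i hi j hj => hxinj i (hJI hi) j (hJI hj))
    (fun i hi => hxne i (hJI hi)) (fun i hi => hxadj i (hJI hi)) hJind hc1
  have h4' : (2 : ℝ) ^ J.card ≤ (U G : ℝ) * ((2 * s) ^ 4 * 4 ^ c) := by exact_mod_cast h4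
  have hJc' : ζ * s - 1 - 2 * τ * s ≤ (J.card : ℝ) := by
    have : (I.card : ℝ) ≤ J.card + eIn G (I.image x) := by exact_mod_cast hJc
    linarith
  have hcr : (c : ℝ) ≤ 2 * τ * s + 1 := by
    rw [hc]; push_cast
    linarith [Nat.floor_le (show (0 : ℝ) ≤ 2 * τ * s by positivity)]
  have h5 : (4 : ℝ) ^ c ≤ (2 : ℝ) ^ (4 * τ * s + 2) := by
    have : (4 : ℝ) ^ c = (2 : ℝ) ^ (2 * (c : ℝ)) := by
      rw [Real.rpow_mul (by norm_num), Real.rpow_natCast]
      norm_num
    rw [this]
    exact Real.rpow_le_rpow_of_exponent_le (by norm_num) (by linarith)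
  have h6 : (2 : ℝ) ^ (ζ * s - 1 - 2 * τ * s) ≤ (2 : ℝ) ^ J.card := by
    rw [← Real.rpow_natCast]
    exact Real.rpow_le_rpow_of_exponent_le (by norm_num) hJc'
  have h7 : (2 : ℝ) ^ (ζ * s - 6 * τ * s - 3) * (2 : ℝ) ^ (4 * τ * s + 2) =
      (2 : ℝ) ^ (ζ * s - 1 - 2 * τ * s) := by
    rw [← Real.rpow_add (by norm_num)]; congr 1; ring
  have h8 : (0 : ℝ) < (2 : ℝ) ^ (4 * τ * s + 2) := by positivity
  have h9 : (2 : ℝ) ^ (ζ * s - 6 * τ * s - 3) * (2 : ℝ) ^ (4 * τ * s + 2) ≤
      ((U G : ℝ) * (2 * s) ^ 4) * (2 : ℝ) ^ (4 * τ * s + 2) := by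
    rw [h7]
    refine h6.trans (h4'.trans ?_)
    rw [← mul_assoc]
    exact mul_le_mul_of_nonneg_left h5 (by positivity)
  exact le_of_mul_le_mul_right h9 h8

end R978UI
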