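import Pool.Agent.R978.UI.Tool

set_option autoImplicit false

namespace R978UI

open Finset Pool.Agent.R980 Filter Topology
open scoped Classical

theorem U_compl {n : ℕ} (G : SimpleGraph (Fin n)) : U Gᶜ = U G := by
  have key : ∀ (G : SimpleGraph (Fin n)) (S T : Finset (Fin n)),
      Nonempty (G.induce (S : Set (Fin n)) ≃g G.induce (T : Set (Fin n))) →
      Nonempty (Gᶜ.induce (S : Set (Fin n)) ≃g Gᶜ.induce (T : Set (Fin n))) := by
    rintro G S T ⟨e⟩
    refine ⟨⟨e.toEquiv, ?_⟩⟩
    intro a b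
    have h := e.map_adj_iff (v := a) (w := b)
    simp only [SimpleGraph.comap_adj, Function.Embedding.subtype_apply, SimpleGraph.compl_adj] at h ⊢
    have h2 : ((e a : Fin n) = (e b : Fin n)) ↔ ((a : Fin n) = (b : Fin n)) := by
      rw [Subtype.coe_inj, Subtype.coe_inj]; exact e.injective.eq_iff
    change ((e a : Fin n) ≠ (e b : Fin n) ∧ ¬ G.Adj (e a : Fin n) (e b : Fin n)) ↔ _
    rw [h, Ne, h2]
  have h : isoSetoid Gᶜ = isoSetoid G := by
    ext S T
    constructor
    · intro h
      have := key Gᶜ S T h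
      rwa [compl_compl] at this
    · exact key G S T
  unfold U
  rw [h]

theorem mainA (hA1 : StmtA1) (hA2 : StmtA2) : StmtA := by
  intro δ hδ hδ1 ε hε η hη
  obtain ⟨K, hK⟩ := exists_nat_gt (max 1 (2 / (ε * δ * η)))
  have hK1 : (1 : ℝ) < K := (le_max_left _ _).trans_lt hK
  have hK2 : 2 / (ε * δ * η) < K := (le_max_right _ _).trans_lt hK
  have hK0 : (0 : ℝ) < K := by linarith
  have hK1' : 1 ≤ K := by exact_mod_cast hK1.le
  obtain ⟨T, hT⟩ := hA2 K
  -- (n+1)^T ≤ 2^(ε n / 2) eventually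
  have hev : ∀ᶠ n : ℕ in atTop, ((n : ℝ) + 1) ^ T ≤ (2 : ℝ) ^ (ε / 2 * n) := by
    have h2 : (1 : ℝ) < (2 : ℝ) ^ (ε / 2) := Real.one_lt_rpow (by norm_num) (by positivity)
    have h3 := tendsto_pow_const_div_const_pow_of_one_lt T h2
    have h4 := h3.const_mul ((2 : ℝ) ^ T)
    rw [mul_zero] at h4
    have h5 := h4.eventually (gt_mem_nhds (zero_lt_one))
    filter_upwards [h5, eventually_ge_atTop 1] with n hn hn1
    have hn1' : (1 : ℝ) ≤ n := by exact_mod_cast hn1
    have h6 : (0 : ℝ) < ((2 : ℝ) ^ (ε / 2)) ^ n := by positivity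
    rw [← mul_div_assoc, div_lt_one h6, ← Real.rpow_natCast ((2 : ℝ) ^ (ε / 2)),
      ← Real.rpow_mul (by norm_num)] at hn
    refine le_trans ?_ hn.le
    rw [← mul_pow]
    exact pow_le_pow_left₀ (by positivity) (by linarith) T
  obtain ⟨N, hN⟩ := eventually_atTop.1 hev
  refine ⟨max N 1, fun n hn p hp0 hp => ?_⟩
  have hnN : N ≤ n := (le_max_left _ _).trans hn
  have hn1 : 1 ≤ n := (le_max_right _ _).trans hn
  have hn1' : (1 : ℝ) ≤ n := by exact_mod_cast hn1
  have hn0 : (0 : ℝ) < n := by linarith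
  have hp1 : p ≤ 1 := hp.trans (by rw [div_le_one hn0]; linarith)
  set big : SimpleGraph (Fin n) → Finset (Fin n) := fun G =>
    univ.filter fun v : Fin n => K < (univ.filter fun u => G.Reachable v u).card with hbig
  have h1 : gnp n p (fun G => (2 : ℝ) ^ (ε * n) < (U G : ℝ))
      ≤ gnp n p (fun G => ε / 2 * n ≤ ((big G).card : ℝ)) := by
    refine gnp_mono hp0 hp1 fun G hG => ?_
    by_contra hc
    push Not at hc
    apply absurd hG
    push Not
    have h2 : (U G : ℝ) ≤ (2 : ℝ) ^ (big G).card * ((n : ℝ) + 1) ^ T := by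
      exact_mod_cast hT n G
    refine h2.trans ?_
    have h3 : (2 : ℝ) ^ (big G).card ≤ (2 : ℝ) ^ (ε / 2 * n) := by
      rw [← Real.rpow_natCast]
      exact Real.rpow_le_rpow_of_exponent_le (by norm_num) hc.le
    calc (2 : ℝ) ^ (big G).card * ((n : ℝ) + 1) ^ T ≤ (2 : ℝ) ^ (ε / 2 * n) * (2 : ℝ) ^ (ε / 2 * n) :=
          mul_le_mul h3 (hN n hnN) (by positivity) (by positivity)
      _ = (2 : ℝ) ^ (ε * n) := by rw [← Real.rpow_add (by norm_num)]; congr 1; ring
  refine h1.trans ?_
  have h4 := gnp_markov hp0 hp1 (fun G => ε / 2 * n ≤ ((big G).card : ℝ))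
    (fun x : Edge n → Bool => ((big (ofBool x)).card : ℝ)) (fun x => by positivity) (ε / 2 * n)
    (by positivity) (fun x hx => hx)
  refine h4.trans ?_
  have h5 : bex p (fun x : Edge n → Bool => ((big (ofBool x)).card : ℝ))
      = ∑ v : Fin n, gnp n p (fun G => K < (univ.filter fun u => G.Reachable v u).card) := by
    simp only [gnp_eq_bex]
    have : ∀ x : Edge n → Bool, ((big (ofBool x)).card : ℝ) =
        ∑ v : Fin n, if K < (univ.filter fun u => (ofBool x).Reachable v u).card then (1 : ℝ) else 0 := by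
      intro x
      rw [hbig]
      simp only
      rw [Finset.card_filter]
      push_cast
      rfl
    unfold bex
    rw [sum_comm]
    refine sum_congr rfl fun x _ => ?_
    beta_reduce
    rw [this x, mul_sum]
    refine sum_congr rfl fun v _ => ?_
    congr 1
    by_cases hv : K < (univ.filter fun u => (ofBool x).Reachable v u).card
    · rw [if_pos hv, if_pos]; convert hv
    · rw [if_neg hv, if_neg]; convert hv
  rw [h5]
  refine (div_le_div_of_nonneg_right (hA1 δ hδ hδ1 n K hn1 hK1' p hp0 hp) (by positivity)).trans ?_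
  rw [div_div, div_le_iff₀ (by positivity)]
  rw [div_lt_iff₀ (by positivity)] at hK2
  nlinarith

theorem main (hA : StmtA) (hB : StmtB) (hC : StmtC) : StmtMain := by
  intro δ hδ
  refine ⟨?_, ?_⟩
  · intro p hp01 hp ε hε
    rcases le_or_gt δ 1 with hδ1 | hδ1
    swap
    · refine (tendsto_congr' ?_).2 tendsto_const_nhds
      filter_upwards [hp, eventually_ge_atTop 1] with n hn hn1
      exfalso
      have hn0 : (0 : ℝ) < n := by exact_mod_cast hn1
      have : (1 - δ) / n < 0 := div_neg_of_neg_of_pos (by linarith) hn0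
      rcases hn with h | h
      · linarith [(hp01 n).1]
      · linarith [(hp01 n).2]
    · rw [Metric.tendsto_atTop]
      intro η hη
      obtain ⟨N, hN⟩ := hA δ hδ hδ1 ε hε (η / 2) (by positivity)
      obtain ⟨N', hN'⟩ := eventually_atTop.1 hp
      refine ⟨max N N', fun n hn => ?_⟩
      have h0 := (hp01 n).1
      have h1 := (hp01 n).2
      have hle : gnp n (p n) (fun G => ¬ ((U G : ℝ) ≤ (2 : ℝ) ^ (ε * n))) ≤ η / 2 := by
        rcases hN' n ((le_max_right _ _).trans hn) with h | h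
        · refine le_trans (gnp_mono h0 h1 fun G hG => ?_) (hN n ((le_max_left _ _).trans hn) (p n) h0 h.le)
          exact not_le.1 hG
        · have h2 := stmtCompl n (1 - p n) (fun G => ¬ ((U G : ℝ) ≤ (2 : ℝ) ^ (ε * n)))
          rw [sub_sub_cancel] at h2
          rw [h2]
          simp only [U_compl]
          refine le_trans (gnp_mono (by linarith) (by linarith) fun G hG => ?_)
            (hN n ((le_max_left _ _).trans hn) (1 - p n) (by linarith) h.le)
          exact not_le.1 hG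
      have h3 := gnp_add_not (n := n) (p := p n) (fun G => (U G : ℝ) ≤ (2 : ℝ) ^ (ε * n))
      have h4 := gnp_le_one h0 h1 (fun G : SimpleGraph (Fin n) => (U G : ℝ) ≤ (2 : ℝ) ^ (ε * n))
      rw [Real.dist_eq, abs_lt]
      constructor <;> linarith
  · obtain ⟨K₀, ε₂, hK₀, hε₂, hC⟩ := hC
    obtain ⟨ε₁, hε₁, hB⟩ := hB δ (max K₀ (1 + δ)) hδ (le_max_right _ _)
    refine ⟨min ε₁ ε₂, lt_min hε₁ hε₂, fun p hp => ?_⟩
    rw [Metric.tendsto_atTop]
    intro η hη
    obtain ⟨N₁, hN₁⟩ := hB (η / 2) (by positivity)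
    obtain ⟨N₂, hN₂⟩ := hC (η / 2) (by positivity)
    obtain ⟨N₃, hN₃⟩ := eventually_atTop.1 hp
    refine ⟨max (max N₁ N₂) (max N₃ 1), fun n hn => ?_⟩
    have hn1 : N₁ ≤ n := le_trans (le_trans (le_max_left _ _) (le_max_left _ _)) hn
    have hn2 : N₂ ≤ n := le_trans (le_trans (le_max_right _ _) (le_max_left _ _)) hn
    have hn3 : N₃ ≤ n := le_trans (le_trans (le_max_left _ _) (le_max_right _ _)) hn
    have hn4 : 1 ≤ n := le_trans (le_trans (le_max_right _ _) (le_max_right _ _)) hn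
    have hn0 : (0 : ℝ) < n := by exact_mod_cast hn4
    obtain ⟨ha, hb⟩ := hN₃ n hn3
    have hpos : 0 < (1 + δ) / n := by positivity
    have hcore : ∀ q : ℝ, (1 + δ) / n < q → q ≤ 1 / 2 →
        gnp n q (fun G => ¬ ((2 : ℝ) ^ (min ε₁ ε₂ * n) ≤ (U G : ℝ))) ≤ η / 2 := by
      intro q hq1 hq2
      have hq0 : 0 ≤ q := by linarith
      have hq1' : q ≤ 1 := by linarith
      rcases le_or_gt q (max K₀ (1 + δ) / n) with h | h
      · refine le_trans (gnp_mono hq0 hq1' fun G hG => ?_) (hN₁ n hn1 q hq1.le h)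
        refine (not_le.1 hG).trans_le ?_
        exact Real.rpow_le_rpow_of_exponent_le (by norm_num)
          (mul_le_mul_of_nonneg_right (min_le_left _ _) hn0.le)
      · refine le_trans (gnp_mono hq0 hq1' fun G hG => ?_) (hN₂ n hn2 q ?_ hq2)
        · refine (not_le.1 hG).trans_le ?_
          exact Real.rpow_le_rpow_of_exponent_le (by norm_num)
            (mul_le_mul_of_nonneg_right (min_le_right _ _) hn0.le)
        · refine le_trans ?_ h.le
          exact div_le_div_of_nonneg_right (le_max_left _ _) hn0.le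
    have hle : gnp n (p n) (fun G => ¬ ((2 : ℝ) ^ (min ε₁ ε₂ * n) ≤ (U G : ℝ))) ≤ η / 2 := by
      rcases le_or_gt (p n) (1 / 2) with h | h
      · exact hcore _ ha h
      · have h2 := stmtCompl n (1 - p n) (fun G => ¬ ((2 : ℝ) ^ (min ε₁ ε₂ * n) ≤ (U G : ℝ)))
        rw [sub_sub_cancel] at h2
        rw [h2]
        simp only [U_compl]
        exact hcore _ hb (by linarith)
    have h3 := gnp_add_not (n := n) (p := p n) (fun G => (2 : ℝ) ^ (min ε₁ ε₂ * n) ≤ (U G : ℝ))
    have h4 := gnp_le_one (p := p n) (by linarith) (by linarith)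
      (fun G : SimpleGraph (Fin n) => (2 : ℝ) ^ (min ε₁ ε₂ * n) ≤ (U G : ℝ))
    rw [Real.dist_eq, abs_lt]
    constructor <;> linarith

end R978UI
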