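import Pool.Agent.R978.UI.DetB

set_option autoImplicit false

namespace R978UI

open Finset Pool.Agent.R980 Filter Topology
open scoped Classical

theorem cond_bound {n m : ℕ} (hmn : m ≤ n) {p : ℝ} (h0 : 0 ≤ p) (h1 : p ≤ 1)
    (A : SimpleGraph (Fin m) → Prop) (P : SimpleGraph (Fin m) → Finset (Fin n))
    (good : Finset (Fin n) → Prop) (hgood : ∀ G1, A G1 → good (P G1))
    (Bad : Finset (Fin n) → SimpleGraph (Fin n) → Prop)
    (hdep : ∀ P0, good P0 → ∀ G G' : SimpleGraph (Fin n),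
      (∀ u v : Fin n, ¬ ((u : ℕ) < m ∧ (v : ℕ) < m) → (G.Adj u v ↔ G'.Adj u v)) →
      (Bad P0 G ↔ Bad P0 G'))
    (η : ℝ) (hη : 0 ≤ η) (hb : ∀ P0, good P0 → gnp n p (Bad P0) ≤ η) :
    gnp n p (fun G => A (G.comap (Fin.castLE hmn)) ∧ Bad (P (G.comap (Fin.castLE hmn))) G) ≤ η := by
  rw [gnp_eq_bex]
  set f : Finset (Fin n) → (Edge n → Bool) → ℝ := fun P0 x =>
    if A ((ofBool x).comap (Fin.castLE hmn)) ∧ P ((ofBool x).comap (Fin.castLE hmn)) = P0 then 1 else 0
    with hf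
  set g : Finset (Fin n) → (Edge n → Bool) → ℝ := fun P0 x =>
    if Bad P0 (ofBool x) then 1 else 0 with hg
  have hf0 : ∀ P0 x, 0 ≤ f P0 x := by
    intro P0 x; rw [hf]; simp only; split_ifs <;> norm_num
  have hg0 : ∀ P0 x, 0 ≤ g P0 x := by
    intro P0 x; rw [hg]; simp only; split_ifs <;> norm_num
  have hbexsum : ∀ F : Finset (Fin n) → (Edge n → Bool) → ℝ,
      bex p (fun x => ∑ P0, F P0 x) = ∑ P0, bex p (F P0) := by
    intro F
    unfold bex
    rw [sum_comm]
    exact sum_congr rfl fun x _ => by rw [mul_sum]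
  refine le_trans (b := ∑ P0, bex p (fun x => f P0 x * g P0 x)) ?_ ?_
  · rw [← hbexsum]
    refine bex_mono h0 h1 fun x => ?_
    split_ifs with h
    · refine le_trans ?_ (single_le_sum (f := fun P0 => f P0 x * g P0 x)
        (fun P0 _ => mul_nonneg (hf0 P0 x) (hg0 P0 x)) (mem_univ (P ((ofBool x).comap (Fin.castLE hmn)))))
      have e1 : f (P ((ofBool x).comap (Fin.castLE hmn))) x = 1 := if_pos ⟨h.1, rfl⟩
      have e2 : g (P ((ofBool x).comap (Fin.castLE hmn))) x = 1 := if_pos h.2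
      rw [e1, e2]
      norm_num
    · exact sum_nonneg fun P0 _ => mul_nonneg (hf0 P0 x) (hg0 P0 x)
  have h3 : ∀ P0 : Finset (Fin n), bex p (fun x => f P0 x * g P0 x) ≤ bex p (f P0) * η := by
    intro P0
    by_cases hP : good P0
    · rw [stmtIndep (Edge n) _ _ p (univ.filter fun e : Edge n => ∀ v ∈ e.1, (v : ℕ) < m) (f P0) (g P0)]
      · refine mul_le_mul_of_nonneg_left ?_ ?_
        · have := hb P0 hP
          rw [gnp_eq_bex] at this
          exact this
        · unfold bex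
          exact sum_nonneg fun x _ => mul_nonneg (bw_nonneg h0 h1 x) (hf0 P0 x)
      · intro x y hxy
        have : (ofBool x).comap (Fin.castLE hmn) = (ofBool y).comap (Fin.castLE hmn) := by
          ext a b
          rw [SimpleGraph.comap_adj, SimpleGraph.comap_adj]
          have key : ∀ h : ¬ (s(Fin.castLE hmn a, Fin.castLE hmn b) : Sym2 (Fin n)).IsDiag,
              x ⟨_, h⟩ = y ⟨_, h⟩ := by
            intro h
            refine hxy _ ?_
            rw [mem_filter]
            refine ⟨mem_univ _, ?_⟩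
            intro v hv
            rw [Sym2.mem_iff] at hv
            rcases hv with rfl | rfl
            · exact a.2
            · exact b.2
          constructor
          · rintro ⟨h, h'⟩; exact ⟨h, by rw [← key h]; exact h'⟩
          · rintro ⟨h, h'⟩; exact ⟨h, by rw [key h]; exact h'⟩
        rw [hf]
        simp only
        rw [this]
      · intro x y hxy
        rw [hg]
        simp only
        have := hdep P0 hP (ofBool x) (ofBool y) (by
          intro a b hab
          have key : ∀ h : ¬ (s(a, b) : Sym2 (Fin n)).IsDiag, x ⟨_, h⟩ = y ⟨_, h⟩ := by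
            intro h
            refine hxy _ ?_
            rw [mem_filter]
            rintro ⟨_, h'⟩
            exact hab ⟨h' a (by simp), h' b (by simp)⟩
          constructor
          · rintro ⟨h, h'⟩; exact ⟨h, by rw [← key h]; exact h'⟩
          · rintro ⟨h, h'⟩; exact ⟨h, by rw [key h]; exact h'⟩)
        by_cases hx : Bad P0 (ofBool x)
        · rw [if_pos hx, if_pos (this.1 hx)]
        · rw [if_neg hx, if_neg fun h => hx (this.2 h)]
    · have hz : ∀ x, f P0 x = 0 := by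
        intro x
        rw [hf]
        simp only
        rw [if_neg]
        rintro ⟨h, rfl⟩
        exact hP (hgood _ h)
      have e1 : (fun x => f P0 x * g P0 x) = fun _ => (0 : ℝ) := by
        funext x; rw [hz x, zero_mul]
      have e2 : f P0 = fun _ => (0 : ℝ) := funext hz
      rw [e1, e2, bex_const]
      simp
  refine (sum_le_sum fun P0 _ => h3 P0).trans ?_
  rw [← sum_mul, ← hbexsum]
  have h4 : bex p (fun x => ∑ P0, f P0 x) ≤ 1 := by
    rw [← bex_const (E := Edge n) p 1]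
    refine bex_mono h0 h1 fun x => ?_
    rw [hf]
    simp only
    by_cases hA : A ((ofBool x).comap (Fin.castLE hmn))
    · simp [hA]
    · simp [hA]
  calc bex p (fun x => ∑ P0, f P0 x) * η ≤ 1 * η := mul_le_mul_of_nonneg_right h4 hη
    _ = η := one_mul η

theorem asym (ζ : ℝ) (hζ : 0 < ζ) : ∃ S0 : ℕ, ∀ s : ℕ, S0 ≤ s →
    8 * (2 * (s : ℝ)) ^ 4 ≤ (2 : ℝ) ^ (ζ / 8 * s) := by
  have h2 : (1 : ℝ) < (2 : ℝ) ^ (ζ / 8) := Real.one_lt_rpow (by norm_num) (by positivity)
  have h3 := tendsto_pow_const_div_const_pow_of_one_lt 4 h2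
  have h4 := h3.const_mul (128 : ℝ)
  rw [mul_zero] at h4
  have h5 := h4.eventually (gt_mem_nhds (zero_lt_one))
  obtain ⟨S0, hS0⟩ := eventually_atTop.1 h5
  refine ⟨S0, fun s hs => ?_⟩
  have hn := hS0 s hs
  have h6 : (0 : ℝ) < ((2 : ℝ) ^ (ζ / 8)) ^ s := by positivity
  rw [← mul_div_assoc, div_lt_one h6, ← Real.rpow_natCast ((2 : ℝ) ^ (ζ / 8)),
    ← Real.rpow_mul (by norm_num)] at hn
  refine le_trans (le_of_eq ?_) hn.le
  ring

theorem mainB (hB0 : StmtB0) (hB1 : StmtB1) (hB3 : StmtB3) (hB4 : StmtB4) : StmtB := by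
  intro δ K hδ hK
  have hK1 : 1 ≤ K := by linarith
  set d : ℝ := δ / (4 * (1 + δ)) with hd
  have hd0 : 0 < d := by positivity
  have hd1 : d * (4 * (1 + δ)) = δ := by rw [hd]; field_simp
  have hd2 : d ≤ 1 / 4 := by nlinarith
  obtain ⟨ζ, hζ, hB3⟩ := hB3 K d hK1 hd0
  obtain ⟨γ1, hγ1, hB0⟩ := hB0 K (ζ / 16) hK1 (by positivity)
  obtain ⟨γB, hγB, hB1⟩ := hB1 (δ / 2) K (by positivity) (by linarith)
  set γ : ℝ := min (min (γB / 4) γ1) (1 / (2 * K)) with hγd
  have hK0 : 0 < K := by linarith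
  have hγ : 0 < γ := lt_min (lt_min (by positivity) hγ1) (by positivity)
  have hγB4 : γ ≤ γB / 4 := (min_le_left _ _).trans (min_le_left _ _)
  refine ⟨ζ * γ / 4, by positivity, fun η hη => ?_⟩
  obtain ⟨N0, hN0⟩ := hB0 γ hγ ((min_le_left _ _).trans (min_le_right _ _)) (η / 3) (by positivity)
  obtain ⟨N1, hN1⟩ := hB1 (η / 3) (by positivity)
  obtain ⟨N3, hN3⟩ := hB3 γ hγ (min_le_right _ _) (η / 3) (by positivity)
  obtain ⟨S0, hS0⟩ := asym ζ hζ
  refine ⟨N0 + N3 + 2 * N1 + ⌈1 / d⌉₊ + ⌈2 * ((S0 : ℝ) + 1) / γ⌉₊ + ⌈K⌉₊ + 1,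
    fun n hn p hp1 hp2 => ?_⟩
  have hnN0 : N0 ≤ n := by omega
  have hnN3 : N3 ≤ n := by omega
  have hnN1 : 2 * N1 ≤ n := by omega
  have hn1 : 1 ≤ n := by omega
  have hn0 : (0 : ℝ) < n := by exact_mod_cast hn1
  have hnd : 1 ≤ d * n := by
    have h1 : ⌈1 / d⌉₊ ≤ n := by omega
    have h2 : (⌈1 / d⌉₊ : ℝ) ≤ n := by exact_mod_cast h1
    have h3 := (Nat.le_ceil (1 / d)).trans h2
    rw [div_le_iff₀ hd0] at h3
    linarith
  have hnγ : 2 * ((S0 : ℝ) + 1) ≤ γ * n := by
    have h1 : ⌈2 * ((S0 : ℝ) + 1) / γ⌉₊ ≤ n := by omega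
    have h2 : (⌈2 * ((S0 : ℝ) + 1) / γ⌉₊ : ℝ) ≤ n := by exact_mod_cast h1
    have h3 := (Nat.le_ceil (2 * ((S0 : ℝ) + 1) / γ)).trans h2
    rw [div_le_iff₀ hγ] at h3
    linarith
  -- sizes
  set n2 : ℕ := ⌈d * n⌉₊ with hn2
  have hn2a : d * n ≤ n2 := Nat.le_ceil _
  have hn2b : (n2 : ℝ) ≤ 2 * (d * n) := by
    have := (Nat.ceil_lt_add_one (show 0 ≤ d * (n : ℝ) by positivity)).le
    rw [← hn2] at this
    linarith
  have hn2c : (n2 : ℝ) ≤ n / 2 := by nlinarith
  have hn2n : n2 ≤ n := by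
    have : (n2 : ℝ) ≤ n := by linarith
    exact_mod_cast this
  obtain ⟨m, hm⟩ : ∃ m, n = m + n2 := ⟨n - n2, by omega⟩
  have hmr : (n : ℝ) = m + n2 := by exact_mod_cast hm
  have hmn : m ≤ n := by omega
  have hm2 : (n : ℝ) / 2 ≤ m := by linarith
  have hm0 : (0 : ℝ) < m := by linarith
  have hmN1 : N1 ≤ m := by
    have : (2 * (N1 : ℝ)) ≤ n := by exact_mod_cast hnN1
    have : (N1 : ℝ) ≤ m := by linarith
    exact_mod_cast this
  have hp0 : 0 < p := lt_of_lt_of_le (by positivity) hp1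
  have hpK : K / n ≤ K / m := div_le_div_of_nonneg_left hK0.le hm0 (by linarith)
  have hp1m : (1 + δ / 2) / m ≤ p := by
    refine le_trans ?_ hp1
    rw [div_le_div_iff₀ hm0 hn0]
    nlinarith
  have hple1 : p ≤ 1 := by
    refine hp2.trans ?_
    rw [div_le_one hn0]
    have h1 : ⌈K⌉₊ ≤ n := by omega
    exact (Nat.le_ceil K).trans (by exact_mod_cast h1)
  set s : ℕ := ⌊γ * n⌋₊ with hs
  have hsa : (s : ℝ) ≤ γ * n := Nat.floor_le (by positivity)
  have hsb : γ * n < s + 1 := Nat.lt_floor_add_one _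
  have hS00 : (0 : ℝ) ≤ S0 := by positivity
  have hsc : γ * n / 2 ≤ s := by linarith
  have hsS0 : S0 ≤ s := by
    have : (S0 : ℝ) ≤ s := by linarith
    exact_mod_cast this
  have hs1 : 1 ≤ s := by
    have : (0 : ℝ) < s := by linarith
    exact_mod_cast this
  have hsB : (s : ℝ) ≤ γB * m := by nlinarith
  -- the second part of the vertex set
  set V₂ : Finset (Fin n) := univ.filter fun v : Fin n => m ≤ (v : ℕ) with hV₂
  have hV₂c : d * n ≤ (V₂.card : ℝ) := by
    refine hn2a.trans ?_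
    have : n2 ≤ V₂.card := by
      have hinj : Function.Injective fun i : Fin n2 => (⟨m + i, by omega⟩ : Fin n) := by
        intro i j hij
        simp only [Fin.mk.injEq] at hij
        exact Fin.ext (by omega)
      have h1 : (univ.image fun i : Fin n2 => (⟨m + i, by omega⟩ : Fin n)) ⊆ V₂ := by
        intro v hv
        obtain ⟨i, _, rfl⟩ := mem_image.1 hv
        rw [hV₂, mem_filter]
        exact ⟨mem_univ _, Nat.le_add_right _ _⟩
      have h2 := card_le_card h1
      rwa [card_image_of_injective _ hinj, card_univ, Fintype.card_fin] at h2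
    exact_mod_cast this
  set A : SimpleGraph (Fin m) → Prop := fun G1 => ∃ u : Fin s → Fin m, IsPath G1 u with hA
  set P : SimpleGraph (Fin m) → Finset (Fin n) := fun G1 =>
    if h : A G1 then univ.image (fun i => Fin.castLE hmn (h.choose i)) else ∅ with hP
  set Bad : Finset (Fin n) → SimpleGraph (Fin n) → Prop := fun P0 G =>
    ((P0.filter fun u => ∃ y ∈ V₂, G.Adj u y ∧ ∀ u' ∈ P0, G.Adj u' y → u' = u).card : ℝ)
      < ζ * P0.card with hBad
  set good : Finset (Fin n) → Prop := fun P0 => P0.card = s ∧ ∀ v ∈ P0, (v : ℕ) < m with hgood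
  have hPA : ∀ G1 (h : A G1), P G1 = univ.image (fun i => Fin.castLE hmn (h.choose i)) := by
    intro G1 h
    rw [hP]
    exact dif_pos h
  have hgoodP : ∀ G1, A G1 → good (P G1) := by
    intro G1 h
    rw [hPA G1 h, hgood]
    refine ⟨?_, ?_⟩
    · rw [card_image_of_injective, card_univ, Fintype.card_fin]
      exact (Fin.castLE_injective hmn).comp h.choose_spec.1
    · intro v hv
      obtain ⟨i, _, rfl⟩ := mem_image.1 hv
      exact (h.choose i).2
  -- third event
  have h3 : gnp n p (fun G => A (G.comap (Fin.castLE hmn)) ∧ Bad (P (G.comap (Fin.castLE hmn))) G) ≤ η / 3 := by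
    refine cond_bound hmn hp0.le hple1 A P good hgoodP Bad ?_ (η / 3) (by positivity) ?_
    · intro P0 hP0 G G' hGG
      have hadj : ∀ u ∈ P0, ∀ y ∈ V₂, (G.Adj u y ↔ G'.Adj u y) := by
        intro u _ y hy
        refine hGG u y ?_
        rintro ⟨_, h⟩
        rw [hV₂, mem_filter] at hy
        omega
      have : (P0.filter fun u => ∃ y ∈ V₂, G.Adj u y ∧ ∀ u' ∈ P0, G.Adj u' y → u' = u) =
          P0.filter fun u => ∃ y ∈ V₂, G'.Adj u y ∧ ∀ u' ∈ P0, G'.Adj u' y → u' = u := by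
        refine filter_congr fun u hu => ?_
        constructor
        · rintro ⟨y, hy, h1, h2⟩
          exact ⟨y, hy, (hadj u hu y hy).1 h1, fun u' hu' h => h2 u' hu' ((hadj u' hu' y hy).2 h)⟩
        · rintro ⟨y, hy, h1, h2⟩
          exact ⟨y, hy, (hadj u hu y hy).2 h1, fun u' hu' h => h2 u' hu' ((hadj u' hu' y hy).1 h)⟩
      rw [hBad]
      simp only
      rw [this]
    · intro P0 hP0
      obtain ⟨hP0a, hP0b⟩ := hP0
      refine hN3 n hnN3 p ?_ hp2 P0 V₂ ?_ (by rw [hP0a]; exact hsc) (by rw [hP0a]; exact hsa) hV₂c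
      · refine le_trans ?_ hp1
        exact div_le_div_of_nonneg_right (by linarith) hn0.le
      · rw [Finset.disjoint_left]
        intro v hv hv'
        rw [hV₂, mem_filter] at hv'
        have := hP0b v hv
        omega
  -- first event
  have h1 : gnp n p (fun G => ¬ A (G.comap (Fin.castLE hmn))) ≤ η / 3 := by
    rw [stmtRestrict n m hmn p (fun G1 => ¬ A G1)]
    refine le_trans (gnp_mono hp0.le hple1 fun G hG => ?_) (hN1 m hmN1 p hp1m (hp2.trans hpK))
    rintro ⟨s', u, hs', hu, hadj⟩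
    apply hG
    have hss : s ≤ s' := by
      have : (s : ℝ) ≤ s' := hsB.trans hs'
      exact_mod_cast this
    refine ⟨fun i => u (Fin.castLE hss i), ?_, ?_⟩
    · exact hu.comp (Fin.castLE_injective hss)
    · intro i j hij
      exact hadj _ _ hij
  -- zeroth event
  have h0 := hN0 n hnN0 p hp0.le hp2
  set E0 : SimpleGraph (Fin n) → Prop := fun G => ∃ S : Finset (Fin n), γ * n / 2 ≤ (S.card : ℝ) ∧
    (S.card : ℝ) ≤ 2 * γ * n ∧ (1 + ζ / 16) * (S.card : ℝ) < (eIn G S : ℝ) with hE0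
  have hmain : gnp n p (fun G => (U G : ℝ) < (2 : ℝ) ^ (ζ * γ / 4 * n)) ≤
      gnp n p (fun G => (¬ A (G.comap (Fin.castLE hmn)) ∨ E0 G) ∨
        (A (G.comap (Fin.castLE hmn)) ∧ Bad (P (G.comap (Fin.castLE hmn))) G)) := by
    refine gnp_mono hp0.le hple1 fun G hG => ?_
    by_contra hc
    push Not at hc
    obtain ⟨⟨hAG, hE⟩, hB⟩ := hc
    have hBn := hB hAG
    have hPe := hPA _ hAG
    have hcard := (hgoodP _ hAG).1
    have hlt := (hgoodP _ hAG).2
    obtain ⟨huinj, huadj⟩ := hAG.choose_spec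
    set u : Fin s → Fin n := fun i => Fin.castLE hmn (hAG.choose i) with hu
    have hupath : IsPath G u := by
      refine ⟨(Fin.castLE_injective hmn).comp huinj, ?_⟩
      intro i j hij
      have := huadj i j hij
      rwa [SimpleGraph.comap_adj] at this
    have hBn' : ζ * s ≤ (((univ.image u).filter fun w => ∃ y ∈ V₂, G.Adj w y ∧
        ∀ u' ∈ univ.image u, G.Adj u' y → u' = w).card : ℝ) := by
      rw [hBad] at hBn
      simp only [not_lt] at hBn
      rw [hcard] at hBn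
      rw [hPe] at hBn
      exact hBn
    have hEn : ∀ S : Finset (Fin n), (s : ℝ) ≤ S.card → (S.card : ℝ) ≤ 2 * s →
        (eIn G S : ℝ) ≤ (1 + ζ / 16) * S.card := by
      intro S hS1 hS2
      by_contra hcc
      push Not at hcc
      exact hE ⟨S, by linarith, by linarith, hcc⟩
    have hdet := det hB4 G u hupath hs1 V₂ (by
      intro i hi
      rw [hV₂, mem_filter] at hi
      have : ((u i : Fin n) : ℕ) < m := (hAG.choose i).2
      omega) ζ (ζ / 16) (by positivity) hBn' hEn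
    have h8 := hS0 s hsS0
    have hU : (2 : ℝ) ^ (ζ * s - 6 * (ζ / 16) * s - 3) * 8 ≤ (U G : ℝ) * (2 : ℝ) ^ (ζ / 8 * s) := by
      calc (2 : ℝ) ^ (ζ * s - 6 * (ζ / 16) * s - 3) * 8 ≤ ((U G : ℝ) * (2 * s) ^ 4) * 8 :=
            mul_le_mul_of_nonneg_right hdet (by norm_num)
        _ = (U G : ℝ) * (8 * (2 * s) ^ 4) := by ring
        _ ≤ _ := mul_le_mul_of_nonneg_left h8 (by positivity)
    have h9 : (2 : ℝ) ^ (ζ * s - 6 * (ζ / 16) * s - 3) * 8 =
        (2 : ℝ) ^ (ζ / 2 * s) * (2 : ℝ) ^ (ζ / 8 * s) := by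
      have : (8 : ℝ) = (2 : ℝ) ^ (3 : ℝ) := by norm_num
      rw [this, ← Real.rpow_add (by norm_num), ← Real.rpow_add (by norm_num)]
      congr 1; ring
    rw [h9] at hU
    have h10 : (2 : ℝ) ^ (ζ / 2 * s) ≤ (U G : ℝ) := le_of_mul_le_mul_right hU (by positivity)
    have h11 : (2 : ℝ) ^ (ζ * γ / 4 * n) ≤ (2 : ℝ) ^ (ζ / 2 * s) := by
      refine Real.rpow_le_rpow_of_exponent_le (by norm_num) ?_
      nlinarith
    linarith
  refine hmain.trans ?_
  refine (gnp_or_le hp0.le hple1 _ _).trans ?_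
  have := gnp_or_le hp0.le hple1 (fun G => ¬ A (G.comap (Fin.castLE hmn))) E0
  linarith

end R978UI
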