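import Pool.Agent.R980.Gnp

/-!
# MP_52097a: sharp threshold for exponentially many unlabeled induced subgraphs
Definitions and exact statements of the independent pieces.
`gnp n p A` (Pool/Agent/R980/Gnp.lean) is the probability that `G(n,p)` has the property `A`.
-/

set_option autoImplicit false

namespace R978UI

open Finset Pool.Agent.R980
open scoped Classical

/-- two vertex sets are equivalent when they induce isomorphic subgraphs -/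
def isoSetoid {n : ℕ} (G : SimpleGraph (Fin n)) : Setoid (Finset (Fin n)) where
  r S T := Nonempty (G.induce (S : Set (Fin n)) ≃g G.induce (T : Set (Fin n)))
  iseqv := ⟨fun _ => ⟨SimpleGraph.Iso.refl⟩, fun ⟨e⟩ => ⟨e.symm⟩, fun ⟨e⟩ ⟨f⟩ => ⟨e.trans f⟩⟩

/-- `U(G)`: the number of unlabeled induced subgraphs of `G` -/
noncomputable def U {n : ℕ} (G : SimpleGraph (Fin n)) : ℕ := Nat.card (Quotient (isoSetoid G))

/-- the number of edges of `G` inside `S` -/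
noncomputable def eIn {n : ℕ} (G : SimpleGraph (Fin n)) (S : Finset (Fin n)) : ℕ :=
  (univ.filter fun e : Edge n => e.1 ∈ G.edgeSet ∧ ∀ v ∈ e.1, v ∈ S).card

/-- the number of edges of `G` with at least one endpoint in `S` -/
noncomputable def eInc {n : ℕ} (G : SimpleGraph (Fin n)) (S : Finset (Fin n)) : ℕ :=
  (univ.filter fun e : Edge n => e.1 ∈ G.edgeSet ∧ ∃ v ∈ e.1, v ∈ S).card

/-- `u` is a path with `s` vertices -/
def IsPath {n s : ℕ} (G : SimpleGraph (Fin n)) (u : Fin s → Fin n) : Prop :=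
  Function.Injective u ∧ ∀ i j : Fin s, (i : ℕ) + 1 = j → G.Adj (u i) (u j)

/-! ## toolkit (K) -/

/-- K1: a function of the coordinates in `S` and a function of the other coordinates are
independent -/
def StmtIndep : Prop := ∀ (E : Type) (_ : Fintype E) (_ : DecidableEq E) (p : ℝ) (S : Finset E)
  (f g : (E → Bool) → ℝ), (∀ x y, (∀ e ∈ S, x e = y e) → f x = f y) →
  (∀ x y, (∀ e ∉ S, x e = y e) → g x = g y) →
  bex p (fun x => f x * g x) = bex p f * bex p g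

/-- K2: Chernoff lower tail for the number of present coordinates in `F` -/
def StmtLower : Prop := ∀ (E : Type) (_ : Fintype E) (_ : DecidableEq E) (p : ℝ), 0 ≤ p → p ≤ 1 →
  ∀ (F : Finset E) (y θ : ℝ), 0 < θ → θ ≤ 1 →
  bex p (fun x : E → Bool => if ((F.filter fun e => x e = true).card : ℝ) ≤ y then 1 else 0)
    ≤ θ ^ (-y) * Real.exp (-(1 - θ) * p * F.card)

/-- K3: Chernoff upper tail for the number of present coordinates in `F` -/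
def StmtUpper : Prop := ∀ (E : Type) (_ : Fintype E) (_ : DecidableEq E) (p : ℝ), 0 ≤ p → p ≤ 1 →
  ∀ (F : Finset E) (y θ : ℝ), 1 ≤ θ →
  bex p (fun x : E → Bool => if y ≤ ((F.filter fun e => x e = true).card : ℝ) then 1 else 0)
    ≤ θ ^ (-y) * Real.exp ((θ - 1) * p * F.card)

/-- K4: complement symmetry -/
def StmtCompl : Prop := ∀ (n : ℕ) (p : ℝ) (A : SimpleGraph (Fin n) → Prop),
  gnp n (1 - p) A = gnp n p (fun G => A Gᶜ)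

/-- K5: fibre bound for `U` -/
def StmtFibre : Prop := ∀ (n : ℕ) (G : SimpleGraph (Fin n)) (F : Finset (Finset (Fin n))) (M : ℕ),
  (∀ S ∈ F, (F.filter fun T => (isoSetoid G).r S T).card ≤ M) → F.card ≤ U G * M

/-- K6: restriction to the first `m` vertices -/
def StmtRestrict : Prop := ∀ (n m : ℕ) (h : m ≤ n) (p : ℝ) (A : SimpleGraph (Fin m) → Prop),
  gnp n p (fun G => A (G.comap (Fin.castLE h))) = gnp m p A

/-! ## (A) subcritical phase -/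

/-- A1: expected number of vertices in components with more than `K` vertices -/
def StmtA1 : Prop := ∀ (δ : ℝ), 0 < δ → δ ≤ 1 → ∀ (n K : ℕ), 1 ≤ n → 1 ≤ K → ∀ p : ℝ, 0 ≤ p →
  p ≤ (1 - δ) / n →
  ∑ v : Fin n, gnp n p (fun G => K < (univ.filter fun u => G.Reachable v u).card) ≤ n / (δ * K)

/-- A2 (deterministic): few vertices in large components imply few unlabeled subgraphs -/
def StmtA2 : Prop := ∀ K : ℕ, ∃ T : ℕ, ∀ (n : ℕ) (G : SimpleGraph (Fin n)),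
  U G ≤ 2 ^ (univ.filter fun v : Fin n => K < (univ.filter fun u => G.Reachable v u).card).card *
    (n + 1) ^ T

/-- A: subcritical conclusion -/
def StmtA : Prop := ∀ δ : ℝ, 0 < δ → δ ≤ 1 → ∀ ε : ℝ, 0 < ε → ∀ η : ℝ, 0 < η →
  ∃ N : ℕ, ∀ n : ℕ, N ≤ n → ∀ p : ℝ, 0 ≤ p → p ≤ (1 - δ) / n →
    gnp n p (fun G => (2 : ℝ) ^ (ε * n) < (U G : ℝ)) ≤ η

/-! ## (B) supercritical phase, `p = O(1/n)` -/

/-- B0: every set with between `γ n / 2` and `2 γ n` vertices spans at most `(1+τ)|S|` edges -/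
def StmtB0 : Prop := ∀ (K τ : ℝ), 1 ≤ K → 0 < τ → ∃ γ₁ : ℝ, 0 < γ₁ ∧ ∀ γ : ℝ, 0 < γ → γ ≤ γ₁ →
  ∀ η : ℝ, 0 < η → ∃ N : ℕ, ∀ n : ℕ, N ≤ n → ∀ p : ℝ, 0 ≤ p → p ≤ K / n →
  gnp n p (fun G => ∃ S : Finset (Fin n), γ * n / 2 ≤ (S.card : ℝ) ∧ (S.card : ℝ) ≤ 2 * γ * n ∧
    (1 + τ) * (S.card : ℝ) < (eIn G S : ℝ)) ≤ η

/-- B00: small sets meet few edges -/
def StmtB00 : Prop := ∀ (K κ : ℝ), 1 ≤ K → 0 < κ → ∃ γ : ℝ, 0 < γ ∧ ∀ η : ℝ, 0 < η →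
  ∃ N : ℕ, ∀ n : ℕ, N ≤ n → ∀ p : ℝ, 0 ≤ p → p ≤ K / n →
  gnp n p (fun G => ∃ S : Finset (Fin n), (S.card : ℝ) ≤ γ * n ∧ κ * n < (eInc G S : ℝ)) ≤ η

/-- B1: a linear path above `1/n` -/
def StmtB1 : Prop := ∀ (δ K : ℝ), 0 < δ → 1 + δ ≤ K → ∃ γ : ℝ, 0 < γ ∧ ∀ η : ℝ, 0 < η →
  ∃ N : ℕ, ∀ n : ℕ, N ≤ n → ∀ p : ℝ, (1 + δ) / n ≤ p → p ≤ K / n →
  gnp n p (fun G => ¬ ∃ (s : ℕ) (u : Fin s → Fin n), γ * n ≤ s ∧ IsPath G u) ≤ η

/-- B3: many vertices of a fixed set `P` have a private neighbour in `V₂` -/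
def StmtB3 : Prop := ∀ (K d : ℝ), 1 ≤ K → 0 < d → ∃ ζ : ℝ, 0 < ζ ∧ ∀ γ : ℝ, 0 < γ →
  γ ≤ 1 / (2 * K) → ∀ η : ℝ, 0 < η → ∃ N : ℕ, ∀ n : ℕ, N ≤ n → ∀ p : ℝ, 1 / n ≤ p → p ≤ K / n →
  ∀ P V₂ : Finset (Fin n), Disjoint P V₂ → γ * n / 2 ≤ (P.card : ℝ) → (P.card : ℝ) ≤ γ * n →
  d * n ≤ (V₂.card : ℝ) →
  gnp n p (fun G => ((P.filter fun u => ∃ y ∈ V₂, G.Adj u y ∧ ∀ u' ∈ P, G.Adj u' y → u' = u).card : ℝ)
    < ζ * P.card) ≤ η

/-- B4 (deterministic): a path with few chords and many private, pairwise non-adjacent leaves -/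
def StmtB4 : Prop := ∀ (n s c : ℕ) (G : SimpleGraph (Fin n)) (u : Fin s → Fin n) (I : Finset (Fin s))
  (x : Fin s → Fin n), IsPath G u → 1 ≤ s →
  (∀ i ∈ I, ∀ j ∈ I, x i = x j → i = j) → (∀ i ∈ I, ∀ j, x i ≠ u j) →
  (∀ i ∈ I, ∀ j, G.Adj (x i) (u j) ↔ j = i) → (∀ i ∈ I, ∀ j ∈ I, ¬ G.Adj (x i) (x j)) →
  eIn G (univ.image u) ≤ (s - 1) + c →
  2 ^ I.card ≤ U G * ((2 * s) ^ 4 * 4 ^ c)

/-- B: supercritical conclusion for `p = O(1/n)` -/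
def StmtB : Prop := ∀ (δ K : ℝ), 0 < δ → 1 + δ ≤ K → ∃ ε : ℝ, 0 < ε ∧ ∀ η : ℝ, 0 < η →
  ∃ N : ℕ, ∀ n : ℕ, N ≤ n → ∀ p : ℝ, (1 + δ) / n ≤ p → p ≤ K / n →
  gnp n p (fun G => (U G : ℝ) < (2 : ℝ) ^ (ε * n)) ≤ η

/-! ## (C) `K₀/n ≤ p ≤ 1/2` -/

/-- C: supercritical conclusion for large `p` -/
def StmtC : Prop := ∃ (K₀ : ℝ) (ε : ℝ), 1 ≤ K₀ ∧ 0 < ε ∧ ∀ η : ℝ, 0 < η →
  ∃ N : ℕ, ∀ n : ℕ, N ≤ n → ∀ p : ℝ, K₀ / n ≤ p → p ≤ 1 / 2 →
  gnp n p (fun G => (U G : ℝ) < (2 : ℝ) ^ (ε * n)) ≤ η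

/-- the result: `1/n` is the sharp threshold (on both sides of the range of `p`, by complements);
in the supercritical range the exponent depends on `δ` only -/
def StmtMain : Prop := ∀ δ : ℝ, 0 < δ →
  (∀ p : ℕ → ℝ, (∀ n, 0 ≤ p n ∧ p n ≤ 1) →
    (∀ᶠ n : ℕ in Filter.atTop, p n < (1 - δ) / n ∨ 1 - p n < (1 - δ) / n) →
    ∀ ε : ℝ, 0 < ε → Filter.Tendsto (fun n : ℕ => gnp n (p n) fun G => (U G : ℝ) ≤ (2 : ℝ) ^ (ε * n))
      Filter.atTop (nhds 1)) ∧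
  (∃ ε : ℝ, 0 < ε ∧ ∀ p : ℕ → ℝ,
    (∀ᶠ n : ℕ in Filter.atTop, (1 + δ) / n < p n ∧ (1 + δ) / n < 1 - p n) →
    Filter.Tendsto (fun n : ℕ => gnp n (p n) fun G => (2 : ℝ) ^ (ε * n) ≤ (U G : ℝ))
      Filter.atTop (nhds 1))

end R978UI
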