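import Pool.Agent.R978.UI.Stm

set_option autoImplicit false

namespace R978UI

open Finset Pool.Agent.R980
open scoped Classical

section indep
variable {E : Type} [Fintype E] [DecidableEq E]

/-- glue two partial assignments -/
noncomputable def glue (S : Finset E) (a b : E → Bool) : E → Bool := fun e => if e ∈ S then a e else b e

theorem bex_eq_glue (p : ℝ) (S : Finset E) (h : (E → Bool) → ℝ) :
    bex p h = ∑ a : {e // e ∈ S} → Bool, ∑ b : {e // ¬ e ∈ S} → Bool,
      (bw p a * bw p b) * h ((Equiv.piEquivPiSubtypeProd (fun e => e ∈ S) (fun _ => Bool)).symm (a, b)) := by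
  unfold bex
  rw [← (Equiv.piEquivPiSubtypeProd (fun e => e ∈ S) (fun _ => Bool)).symm.sum_comp, Fintype.sum_prod_type]
  refine sum_congr rfl fun a _ => sum_congr rfl fun b _ => ?_
  congr 1
  unfold bw
  have key : ∀ h : E → ℝ, ∏ e, h e = (∏ e : {e // e ∈ S}, h e) * ∏ e : {e // ¬ e ∈ S}, h e := by
    intro h
    rw [← Finset.prod_subtype S (fun x => Iff.rfl) h, ← Finset.prod_subtype Sᶜ (by simp) h,
      Finset.prod_mul_prod_compl]
  rw [key]
  congr 1
  · refine prod_congr rfl fun e _ => ?_
    simp [Equiv.piEquivPiSubtypeProd, e.2]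
  · refine prod_congr rfl fun e _ => ?_
    simp [Equiv.piEquivPiSubtypeProd, e.2]

theorem sum_bw (p : ℝ) : ∑ x : E → Bool, bw p x = 1 := by
  have := bex_const (E := E) p 1
  unfold bex at this
  simpa using this

end indep

theorem stmtIndep : StmtIndep := by
  intro E _ _ p S f g hf hg
  have hf' : ∀ (a : {e // e ∈ S} → Bool) (b b' : {e // ¬ e ∈ S} → Bool),
      f ((Equiv.piEquivPiSubtypeProd (fun e => e ∈ S) (fun _ => Bool)).symm (a, b)) =
      f ((Equiv.piEquivPiSubtypeProd (fun e => e ∈ S) (fun _ => Bool)).symm (a, b')) := by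
    intro a b b'
    refine hf _ _ fun e he => ?_
    simp [Equiv.piEquivPiSubtypeProd, he]
  have hg' : ∀ (a a' : {e // e ∈ S} → Bool) (b : {e // ¬ e ∈ S} → Bool),
      g ((Equiv.piEquivPiSubtypeProd (fun e => e ∈ S) (fun _ => Bool)).symm (a, b)) =
      g ((Equiv.piEquivPiSubtypeProd (fun e => e ∈ S) (fun _ => Bool)).symm (a', b)) := by
    intro a a' b
    refine hg _ _ fun e he => ?_
    simp [Equiv.piEquivPiSubtypeProd, he]
  set b0 : {e // ¬ e ∈ S} → Bool := fun _ => false
  set a0 : {e // e ∈ S} → Bool := fun _ => false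
  set F : ({e // e ∈ S} → Bool) → ℝ := fun a =>
    f ((Equiv.piEquivPiSubtypeProd (fun e => e ∈ S) (fun _ => Bool)).symm (a, b0))
  set G : ({e // ¬ e ∈ S} → Bool) → ℝ := fun b =>
    g ((Equiv.piEquivPiSubtypeProd (fun e => e ∈ S) (fun _ => Bool)).symm (a0, b))
  have h1 : bex p f = ∑ a, bw p a * F a := by
    rw [bex_eq_glue p S f]
    have : ∀ a : {e // e ∈ S} → Bool, ∑ b : {e // ¬ e ∈ S} → Bool, (bw p a * bw p b) *
        f ((Equiv.piEquivPiSubtypeProd (fun e => e ∈ S) (fun _ => Bool)).symm (a, b)) =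
        bw p a * F a := by
      intro a
      have : ∀ b : {e // ¬ e ∈ S} → Bool, (bw p a * bw p b) *
        f ((Equiv.piEquivPiSubtypeProd (fun e => e ∈ S) (fun _ => Bool)).symm (a, b)) =
        bw p b * (bw p a * F a) := by
        intro b; rw [hf' a b b0]; ring
      rw [sum_congr rfl fun b _ => this b, ← sum_mul, sum_bw, one_mul]
    exact sum_congr rfl fun a _ => this a
  have h2 : bex p g = ∑ b, bw p b * G b := by
    rw [bex_eq_glue p S g, sum_comm]
    have : ∀ b : {e // ¬ e ∈ S} → Bool, ∑ a : {e // e ∈ S} → Bool, (bw p a * bw p b) *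
        g ((Equiv.piEquivPiSubtypeProd (fun e => e ∈ S) (fun _ => Bool)).symm (a, b)) =
        bw p b * G b := by
      intro b
      have : ∀ a : {e // e ∈ S} → Bool, (bw p a * bw p b) *
        g ((Equiv.piEquivPiSubtypeProd (fun e => e ∈ S) (fun _ => Bool)).symm (a, b)) =
        bw p a * (bw p b * G b) := by
        intro a; rw [hg' a a0 b]; ring
      rw [sum_congr rfl fun a _ => this a, ← sum_mul, sum_bw, one_mul]
    exact sum_congr rfl fun b _ => this b
  rw [h1, h2, bex_eq_glue p S, sum_mul]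
  refine sum_congr rfl fun a _ => ?_
  rw [mul_sum]
  refine sum_congr rfl fun b _ => ?_
  rw [hf' a b b0, hg' a a0 b]
  ring

section chernoff
variable {E : Type} [Fintype E] [DecidableEq E]

theorem bex_pow_card (p θ : ℝ) (F : Finset E) :
    bex p (fun x : E → Bool => θ ^ (F.filter fun e => x e = true).card) = (1 + (θ - 1) * p) ^ F.card := by
  have h1 : (fun x : E → Bool => θ ^ (F.filter fun e => x e = true).card)
      = fun x => ∏ e : E, (fun (e : E) (b : Bool) => if e ∈ F ∧ b = true then θ else 1) e (x e) := by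
    funext x
    simp only
    rw [Finset.prod_ite, prod_const, prod_const_one, mul_one]
    congr 2
    ext e; simp
  rw [h1, bex_prod p (fun (e : E) (b : Bool) => if e ∈ F ∧ b = true then θ else 1)]
  simp only [and_true, Bool.false_eq_true, and_false, if_false, mul_one]
  have h2 : ∀ e : E, (p * (if e ∈ F then θ else 1) + (1 - p))
      = if e ∈ F then 1 + (θ - 1) * p else 1 := by
    intro e; split_ifs <;> ring
  rw [prod_congr rfl fun e _ => h2 e, Finset.prod_ite, prod_const, prod_const_one, mul_one]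
  congr 2
  ext e; simp

theorem pow_bound {p θ : ℝ} (h0 : 0 ≤ p) (h1 : p ≤ 1) (hθ : 0 < θ) (k : ℕ) :
    (1 + (θ - 1) * p) ^ k ≤ Real.exp ((θ - 1) * p * k) := by
  have h2 : 0 ≤ 1 + (θ - 1) * p := by nlinarith
  have h3 : 1 + (θ - 1) * p ≤ Real.exp ((θ - 1) * p) := by
    have := Real.add_one_le_exp ((θ - 1) * p); linarith
  refine (pow_le_pow_left₀ h2 h3 k).trans_eq ?_
  rw [← Real.exp_nat_mul]; congr 1; ring

end chernoff

theorem stmtLower : StmtLower := by
  intro E _ _ p h0 h1 F y θ hθ hθ1
  have h : bex p (fun x : E → Bool => if ((F.filter fun e => x e = true).card : ℝ) ≤ y then 1 else 0)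
      ≤ bex p (fun x : E → Bool => θ ^ (-y) * θ ^ (F.filter fun e => x e = true).card) := by
    refine bex_mono h0 h1 fun x => ?_
    split_ifs with hx
    · rw [← Real.rpow_natCast, ← Real.rpow_add hθ]
      exact Real.one_le_rpow_of_pos_of_le_one_of_nonpos hθ hθ1 (by linarith)
    · positivity
  refine h.trans ?_
  rw [bex_mul, bex_pow_card]
  refine mul_le_mul_of_nonneg_left ?_ (by positivity)
  refine (pow_bound h0 h1 hθ _).trans_eq ?_
  congr 1; ring

theorem stmtUpper : StmtUpper := by
  intro E _ _ p h0 h1 F y θ hθ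
  have hθ0 : 0 < θ := by linarith
  have h : bex p (fun x : E → Bool => if y ≤ ((F.filter fun e => x e = true).card : ℝ) then 1 else 0)
      ≤ bex p (fun x : E → Bool => θ ^ (-y) * θ ^ (F.filter fun e => x e = true).card) := by
    refine bex_mono h0 h1 fun x => ?_
    split_ifs with hx
    · rw [← Real.rpow_natCast, ← Real.rpow_add hθ0]
      exact Real.one_le_rpow hθ (by linarith)
    · positivity
  refine h.trans ?_
  rw [bex_mul, bex_pow_card]
  exact mul_le_mul_of_nonneg_left (pow_bound h0 h1 hθ0 _) (by positivity)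

theorem ofBool_not {n : ℕ} (x : Edge n → Bool) : ofBool (fun e => !x e) = (ofBool x)ᶜ := by
  ext u v
  rw [SimpleGraph.compl_adj]
  constructor
  · rintro ⟨h, hx⟩
    refine ⟨fun huv => h (by subst huv; simp), fun ⟨h', hx'⟩ => ?_⟩
    simp only [Bool.not_eq_true'] at hx
    rw [hx] at hx'; exact Bool.false_ne_true hx'
  · rintro ⟨huv, hna⟩
    have h : ¬ (s(u, v) : Sym2 (Fin n)).IsDiag := by simpa using huv
    refine ⟨h, ?_⟩
    by_contra hx
    simp only [Bool.not_eq_true', Bool.not_eq_false] at hx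
    exact hna ⟨h, hx⟩

theorem stmtCompl : StmtCompl := by
  intro n p A
  rw [gnp_eq_bex, gnp_eq_bex]
  unfold bex
  have hinv : Function.Involutive (fun (x : Edge n → Bool) (e : Edge n) => !x e) := by
    intro x; funext e; simp
  rw [← Equiv.sum_comp (Function.Involutive.toPerm _ hinv)]
  refine sum_congr rfl fun x _ => ?_
  rw [Function.Involutive.coe_toPerm]
  beta_reduce
  rw [ofBool_not]
  congr 1
  unfold bw
  refine prod_congr rfl fun e _ => ?_
  cases h : x e <;> simp [h]

theorem stmtFibre : StmtFibre := by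
  intro n G F M h
  have h1 := Finset.card_le_mul_card_image (f := fun S : Finset (Fin n) => (Quotient.mk (isoSetoid G) S))
    F M (by
      intro a ha
      obtain ⟨S, hS, rfl⟩ := Finset.mem_image.1 ha
      refine le_trans (Finset.card_le_card ?_) (h S hS)
      intro T hT
      rw [mem_filter] at hT ⊢
      exact ⟨hT.1, (isoSetoid G).symm (Quotient.exact hT.2)⟩)
  have h2 : (F.image (fun S : Finset (Fin n) => (Quotient.mk (isoSetoid G) S))).card ≤ U G := by
    unfold U
    rw [Nat.card_eq_fintype_card]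
    exact Finset.card_le_univ _
  calc F.card ≤ M * _ := h1
    _ ≤ M * U G := Nat.mul_le_mul_left _ h2
    _ = U G * M := mul_comm _ _

theorem bex_comp_inj {E E' : Type} [Fintype E] [DecidableEq E] [Fintype E'] [DecidableEq E'] (p : ℝ)
    (ι : E' → E) (hι : Function.Injective ι) (F : (E' → Bool) → ℝ) :
    bex p (fun x : E → Bool => F (x ∘ ι)) = bex p F := by
  have h1 : ∀ x : E → Bool, F (x ∘ ι) = ∑ y : E' → Bool, (if x ∘ ι = y then 1 else 0) * F y := by
    intro x; simp
  have h2 : bex p (fun x : E → Bool => F (x ∘ ι))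
      = ∑ y : E' → Bool, bex p (fun x : E → Bool => if x ∘ ι = y then 1 else 0) * F y := by
    unfold bex
    simp_rw [h1, mul_sum, sum_mul]
    rw [sum_comm]
    refine sum_congr rfl fun y _ => sum_congr rfl fun x _ => by ring
  rw [h2]
  unfold bex
  refine sum_congr rfl fun y _ => ?_
  congr 1
  have h3 : (fun x : E → Bool => if x ∘ ι = y then (1 : ℝ) else 0)
      = fun x => ∏ e : E, (fun (e : E) (b : Bool) => if ∃ e', ι e' = e ∧ y e' ≠ b then (0 : ℝ) else 1) e (x e) := by
    funext x
    by_cases hx : x ∘ ι = y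
    · rw [if_pos hx]
      symm
      refine prod_eq_one fun e _ => ?_
      beta_reduce
      rw [if_neg]
      rintro ⟨e', rfl, h⟩
      exact h (by rw [← hx]; rfl)
    · rw [if_neg hx]
      symm
      obtain ⟨e', he'⟩ := Function.ne_iff.1 hx
      refine prod_eq_zero (mem_univ (ι e')) ?_
      simp only
      rw [if_pos ⟨e', rfl, fun h => he' h.symm⟩]
  have h4 := bex_prod p (fun (e : E) (b : Bool) => if ∃ e', ι e' = e ∧ y e' ≠ b then (0 : ℝ) else 1)
  rw [← h3] at h4
  have h5 : ∑ x : E → Bool, bw p x * (if x ∘ ι = y then (1 : ℝ) else 0) =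
      bex p (fun x : E → Bool => if x ∘ ι = y then 1 else 0) := rfl
  rw [h5, h4]
  unfold bw
  rw [← Finset.prod_subset (s₁ := univ.image ι) (subset_univ _), prod_image (fun a _ b _ h => hι h)]
  · refine prod_congr rfl fun e' _ => ?_
    have h6 : ∀ b : Bool, (∃ e'', ι e'' = ι e' ∧ y e'' ≠ b) ↔ y e' ≠ b := by
      intro b
      constructor
      · rintro ⟨e'', h, h'⟩
        rwa [← hι h]
      · intro h; exact ⟨e', rfl, h⟩
    simp only [h6]
    cases y e' <;> simp
  · intro e _ he
    have h7 : ∀ b : Bool, ¬ ∃ e', ι e' = e ∧ y e' ≠ b := by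
      rintro b ⟨e', h, _⟩
      exact he (mem_image.2 ⟨e', mem_univ _, h⟩)
    simp only [h7, if_false]
    ring

theorem stmtRestrict : StmtRestrict := by
  intro n m h p A
  rw [gnp_eq_bex, gnp_eq_bex]
  have hd : ∀ e : Edge m, ¬ (Sym2.map (Fin.castLE h) e.1).IsDiag := by
    rintro ⟨e, he⟩
    induction e with
    | _ u v =>
    simp only [Sym2.map_mk, Sym2.mk_isDiag_iff] at he ⊢
    simpa using he
  let ι : Edge m → Edge n := fun e => ⟨Sym2.map (Fin.castLE h) e.1, hd e⟩
  have hι : Function.Injective ι := by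
    intro e e' hee
    have := congrArg Subtype.val hee
    exact Subtype.ext (Sym2.map.injective (Fin.castLE_injective h) this)
  rw [← bex_comp_inj p ι hι]
  congr 1
  funext x
  have : (ofBool x).comap (Fin.castLE h) = ofBool (x ∘ ι) := by
    ext u v
    rw [SimpleGraph.comap_adj]
    constructor
    · rintro ⟨h1, h2⟩
      have h3 : ¬ (s(u, v) : Sym2 (Fin m)).IsDiag := by
        intro h3; apply h1
        simp only [Sym2.mk_isDiag_iff] at h3 ⊢
        rw [h3]
      exact ⟨h3, h2⟩
    · rintro ⟨h1, h2⟩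
      exact ⟨hd ⟨_, h1⟩, h2⟩
  rw [this]

end R978UI
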